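import Mathlib
import Pool.Agent.H14.Antimagic

set_option autoImplicit false

namespace Pool.Agent.Results.MP_f5b38d_co.BetaNotTight

open Pool.Agent.H14.AntimagicP3 Finset

variable {V : Type}

/-- The degree of `v`. -/
noncomputable def deg (G : SimpleGraph V) (v : V) : ℕ := (G.neighborSet v).ncard

/-- The number of internal edges. -/
noncomputable def internal (G : SimpleGraph V) : ℕ := {e ∈ G.edgeSet | ∀ v ∈ e, deg G v ≠ 1}.ncard

/-- The number of components isomorphic to `P₃`, counted by their middle vertices. -/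
noncomputable def numP3 (G : SimpleGraph V) : ℕ :=
  {v | deg G v = 2 ∧ ∀ w, G.Adj v w → deg G w = 1}.ncard

/-- The bound `β(G)`. -/
noncomputable def beta (G : SimpleGraph V) : ℤ :=
  ⌊min ((3 + 2 * √2) * ((G.edgeSet.ncard : ℝ) - Nat.card V) + (1 + √2) * (G.edgeSet.ncard + 1 / 2))
    (2 * G.edgeSet.ncard + 5 * ((internal G : ℝ) - numP3 G) + 1)⌋

/-- For `G = S₁₆ ∪ S₃` one has `β(G) = 35`, but `G ∪ 35P₃` is not antimagic. -/
theorem result : ∃ (V : Type) (_ : Finite V) (G : SimpleGraph V), (∀ v, deg G v ≠ 0) ∧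
    (∀ u v, G.Adj u v → ¬ (deg G u = 1 ∧ deg G v = 1)) ∧ 0 ≤ beta G ∧
    ¬ Antimagic (G ⊕g P3s (beta G).toNat) := by
  have h := (pend_star 16).sum (pend_star 3)
  have hd : ∀ v, deg (star 16 ⊕g star 3) v =
      Sum.elim (Sum.elim (fun _ => 16) fun _ => 1) (Sum.elim (fun _ => 3) fun _ => 1) v := by
    simp only [deg, h.nbr, Set.ncard_coe_finset]
    decide +kernel
  have h1 : internal (star 16 ⊕g star 3) = 0 := by
    rw [internal, Set.ncard_eq_zero, Set.eq_empty_iff_forall_notMem]
    rintro e ⟨k1, k2⟩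
    obtain ⟨u, k3, rfl⟩ := h.bij.2.2 k1
    refine k2 u (Sym2.mem_mk_left _ _) ?_
    rw [hd]
    revert k3
    simp only [Set.mem_ofPred_eq]
    clear k1 k2
    revert u
    decide +kernel
  have h2 : numP3 (star 16 ⊕g star 3) = 0 := by
    rw [numP3, Set.ncard_eq_zero, Set.eq_empty_iff_forall_notMem]
    rintro v ⟨k, -⟩
    rw [hd] at k
    revert v
    decide +kernel
  have h3 : (star 16 ⊕g star 3).edgeSet.ncard = 19 := h.card.trans (by decide +kernel)
  have h4 : beta (star 16 ⊕g star 3) = 35 := by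
    have a1 : (1.4 : ℝ) < √2 := Real.lt_sqrt_of_sq_lt (by norm_num)
    have a2 : √2 < (1.42 : ℝ) := (Real.sqrt_lt' (by norm_num)).2 (by norm_num)
    rw [beta, h1, h2, h3, show Nat.card ((Fin 1 ⊕ Fin 16) ⊕ (Fin 1 ⊕ Fin 3)) = 21 by simp,
      min_eq_left (by push_cast; linarith), Int.floor_eq_iff]
    push_cast
    constructor <;> linarith
  refine ⟨_, inferInstance, star 16 ⊕g star 3, ?_, ?_, by omega, ?_⟩
  · simp only [hd]
    decide +kernel
  · simp only [hd, h.1]
    decide +kernel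
  · rw [h4]
    exact (h.sum (pend_P3s 35)).not_anti (Sum.elim Sum.isRight fun _ => true) (by decide +kernel)
      (by decide +kernel)

end Pool.Agent.Results.MP_f5b38d_co.BetaNotTight
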